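import Pool.Agent.Helper74.RN.St

set_option autoImplicit false

/-!
Project RN, module RDB: what is read on the virtual tape.
-/

namespace Pool.Agent.Helper76.RN

open Pool.Agent.Helper74 Pool.Agent.Helper74.RN

/-- the action at the place `i` -/
private def ac {G : Type} (w : List (Option G)) (p : Bool) (i : ℕ) : Ce G :=
  match w[i - 1]? with
  | some o => if p then a1 o else a2 o
  | none => .c

private def rr {G : Type} (w : List (Option G)) (c : Cd) : Bool × Option (Ce G) :=
  vr c.1 (rp w c.2.1) (rp w c.2.2)

private theorem rr0 {G : Type} (w : List (Option G)) (p : Bool) (i t : ℕ) (hi : 1 ≤ i) :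
    rr w (.k p 0, i, t) = (false, some (ac w p i)) := by
  have h0 : decide (i = 0) = false := by
    rw [decide_eq_false_iff_not]
    omega
  cases p
  · simp only [rr, vr, rp, h0, ac]
    cases w[i - 1]? <;> simp
  · simp only [rr, vr, rp, ac]
    cases w[i - 1]? <;> simp

private theorem map_range_const {α : Type} (n : ℕ) (f : ℕ → α) (a : α) (h : ∀ t, f t = a) :
    (List.range n).map f = List.replicate n a := by
  have hf : f = fun _ => a := funext h
  rw [hf, List.map_const', List.length_range]

private theorem block {G : Type} (w : List (Option G)) (p : Bool) (i : ℕ) (hi : 1 ≤ i) :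
    (cb w.length p i).map (rr w) =
      (bk (w.length + 2) (ac w p i)).map (fun a => (false, some a)) := by
  unfold cb bk
  rw [List.map_append, List.map_cons, List.map_append, List.map_map, List.map_map, List.map_cons,
    List.map_append, List.map_cons, List.map_append, List.map_replicate, List.map_replicate]
  rw [map_range_const (w.length + 2) (rr w ∘ fun t => (Ki.k p 0, i, t)) (false, some (ac w p i))
    (fun t => rr0 w p i t hi)]
  rw [map_range_const (w.length + 2) (rr w ∘ fun t => (Ki.k p 2, i, w.length + 1 - t))
    (false, some Ce.c) (fun t => by simp [rr, vr])]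
  have h1 : rr w (.k p 1, i, w.length + 1) = (false, some Ce.s) := by simp [rr, vr]
  have h3 : rr w (.k p 3, i, 0) = (false, some Ce.s) := by simp [rr, vr]
  rw [h1, h3]
  simp only [List.map_cons, List.map_nil]

private theorem flat_aux {G : Type} (w : List (Option G)) (p : Bool) (l : List ℕ) (g : ℕ → ℕ)
    (hg : ∀ i ∈ l, 1 ≤ g i) :
    (l.flatMap (fun i => cb w.length p (g i))).map (rr w) =
      ((l.map (fun i => ac w p (g i))).flatMap (bk (w.length + 2))).map
        (fun a => (false, some a)) := by
  induction l with
  | nil => rfl
  | cons a l ih =>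
    rw [List.flatMap_cons, List.map_append, block w p (g a) (hg a (List.mem_cons_self ..)),
      ih (fun i hi => hg i (List.mem_cons_of_mem _ hi)), List.map_cons, List.flatMap_cons,
      List.map_append]

private theorem pass1 {G : Type} (w : List (Option G)) :
    (List.range (w.length + 1)).map (fun i => ac w true (i + 1)) = w.map a1 ++ [Ce.c] := by
  rw [List.range_succ, List.map_append, List.map_cons, List.map_nil]
  have h1 : ac w true (w.length + 1) = Ce.c := by
    unfold ac
    rw [Nat.add_sub_cancel, List.getElem?_eq_none (le_refl _)]
  rw [h1]
  congr 1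
  refine List.ext_getElem (by simp) fun i h1 h2 => ?_
  rw [List.getElem_map, List.getElem_map, List.getElem_range]
  unfold ac
  have hi : i < w.length := by simpa using h2
  rw [Nat.add_sub_cancel, List.getElem?_eq_getElem hi]
  rfl

private theorem pass2 {G : Type} (w : List (Option G)) :
    (List.range (w.length + 1)).map (fun i => ac w false (w.length + 1 - i)) =
      Ce.c :: w.reverse.map a2 := by
  rw [List.range_succ_eq_map, List.map_cons, List.map_map]
  have h1 : ac w false (w.length + 1 - 0) = Ce.c := by
    unfold ac
    rw [Nat.sub_zero, Nat.add_sub_cancel, List.getElem?_eq_none (le_refl _)]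
  rw [h1]
  congr 1
  refine List.ext_getElem (by simp) fun i h1 h2 => ?_
  rw [List.getElem_map, List.getElem_map, List.getElem_range]
  have hi : i < w.length := by simpa using h2
  have e : w.length + 1 - Nat.succ i - 1 = w.length - 1 - i := by omega
  have hlt : w.length - 1 - i < w.length := by omega
  simp only [Function.comp_apply]
  unfold ac
  rw [e, List.getElem?_eq_getElem hlt, List.getElem_reverse]
  rfl

theorem hRDB : Pool.Agent.Helper74.RN.StRDB := by
  intro G w
  change (Cl w.length).map (rr w) = _
  unfold Cl
  rw [List.map_cons, List.map_append, List.map_cons, List.map_nil]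
  have h0 : rr w (.L, 0, 0) = (true, some Ce.s) := rfl
  have h9 : rr w (.k false 0, 0, 0) = (false, none) := rfl
  rw [h0, h9]
  congr 2
  unfold Cm Wd acts
  rw [List.map_cons, List.map_append, List.map_cons]
  have h3 : rr w (.k true 3, 0, 0) = (false, some Ce.s) := rfl
  rw [h3]
  congr 1
  rw [flat_aux w true (List.range (w.length + 1)) (fun i => i + 1)
    (fun i _ => Nat.le_add_left 1 i),
    flat_aux w false (List.range (w.length + 1)) (fun i => w.length + 1 - i)
    (fun i hi => by
      rw [List.mem_range] at hi
      omega), pass1, pass2]
  rw [← List.map_append, ← List.flatMap_append]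
  congr 2
  simp

end Pool.Agent.Helper76.RN
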